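import Mathlib

set_option autoImplicit false

namespace Pool.Agent.Hhelper65.SphereLimits

open Filter Topology Set

/-- Finite gluing: on pairwise disjoint closed sets we can prescribe constants. -/
lemma exists_continuous_finite_values {X E ι : Type*} [TopologicalSpace X] [NormalSpace X]
    [Finite ι] [AddCommGroup E] [Module ℝ E] [TopologicalSpace E] [ContinuousAdd E]
    [ContinuousSMul ℝ E] (D : ι → Set X) (hD : ∀ i, IsClosed (D i))
    (hdisj : ∀ i j, i ≠ j → Disjoint (D i) (D j)) (v : ι → E) :
    ∃ φ : C(X, E), ∀ i, ∀ x ∈ D i, φ x = v i := by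
  classical
  have := Fintype.ofFinite ι
  have hU : ∀ i : ι, ∃ f : C(X, ℝ), EqOn f 0 (⋃ j ∈ {j : ι | j ≠ i}, D j) ∧ EqOn f 1 (D i) ∧
      ∀ x, f x ∈ Icc (0 : ℝ) 1 := by
    intro i
    apply exists_continuous_zero_one_of_isClosed
    · exact (Set.toFinite _).isClosed_biUnion (fun j _ => hD j)
    · exact hD i
    · rw [Set.disjoint_iUnion₂_left]
      intro j hj
      exact hdisj j i hj
  choose χ hχ0 hχ1 _ using hU
  refine ⟨⟨fun x => ∑ i, (χ i x) • v i, ?_⟩, ?_⟩
  · exact continuous_finsetSum _ (fun i _ => (χ i).continuous.smul continuous_const)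
  · intro i x hx
    simp only [ContinuousMap.coe_mk]
    rw [Finset.sum_eq_single i]
    · rw [hχ1 i hx]; simp
    · intro j _ hji
      have : χ j x = 0 := by
        have hmem : x ∈ ⋃ k ∈ {k : ι | k ≠ j}, D k := by
          simp only [mem_iUnion, mem_ofPred_eq]
          exact ⟨i, hji.symm, hx⟩
        have := hχ0 j hmem
        simpa using this
      rw [this, zero_smul]
    · simp

/-- Pick points in finitely many nonempty open sets with pairwise distinct first coordinates. -/
lemma exists_points_injective_fst {W ι : Type*} [TopologicalSpace W] [Finite ι]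
    (O : ι → Set (ℝ × W)) (hO : ∀ i, IsOpen (O i)) (hne : ∀ i, (O i).Nonempty) :
    ∃ y : ι → ℝ × W, (∀ i, y i ∈ O i) ∧ Function.Injective (fun i => (y i).1) := by
  classical
  have := Fintype.ofFinite ι
  have key : ∀ s : Finset ι, ∃ y : ι → ℝ × W, (∀ i ∈ s, y i ∈ O i) ∧
      Set.InjOn (fun i => (y i).1) s := by
    intro s
    induction s using Finset.induction_on with
    | empty =>
      refine ⟨fun i => (hne i).some, by simp, by simp⟩
    | insert a s ha ih =>
      obtain ⟨y, hy, hinj⟩ := ih
      obtain ⟨⟨x0, w0⟩, hxw⟩ := hne a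
      have hopen : IsOpen {x : ℝ | (x, w0) ∈ O a} :=
        (hO a).preimage (by fun_prop : Continuous fun x : ℝ => (x, w0))
      have hinf : Set.Infinite {x : ℝ | (x, w0) ∈ O a} :=
        infinite_of_mem_nhds x0 (hopen.mem_nhds hxw)
      obtain ⟨x, hx, hxs⟩ := hinf.exists_notMem_finset (s.image (fun i => (y i).1))
      refine ⟨Function.update y a (x, w0), ?_, ?_⟩
      · intro i hi
        by_cases hia : i = a
        · subst hia
          simpa using hx
        · rw [Function.update_of_ne hia]
          exact hy i ((Finset.mem_insert.mp hi).resolve_left hia)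
      · intro i hi j hj hij
        simp only [Finset.coe_insert, Set.mem_insert_iff, Finset.mem_coe] at hi hj
        by_cases hia : i = a
        · by_cases hja : j = a
          · rw [hia, hja]
          · exfalso
            apply hxs
            simp only [hia, Function.update_self, Function.update_of_ne hja] at hij
            rw [Finset.mem_image]
            exact ⟨j, hj.resolve_left hja, hij.symm⟩
        · by_cases hja : j = a
          · exfalso
            apply hxs
            simp only [hja, Function.update_self, Function.update_of_ne hia] at hij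
            rw [Finset.mem_image]
            exact ⟨i, hi.resolve_left hia, hij⟩
          · simp only [Function.update_of_ne hia, Function.update_of_ne hja] at hij
            exact hinj (hi.resolve_left hia) (hj.resolve_left hja) hij
  obtain ⟨y, hy, hinj⟩ := key Finset.univ
  exact ⟨y, fun i => hy i (Finset.mem_univ i), fun i j h => hinj (by simp) (by simp) h⟩

/-- vertical shear -/
def shearV {W : Type*} [AddCommGroup W] [TopologicalSpace W] [IsTopologicalAddGroup W]
    (φ : C(ℝ, W)) : ℝ × W ≃ₜ ℝ × W where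
  toFun p := (p.1, p.2 + φ p.1)
  invFun p := (p.1, p.2 - φ p.1)
  left_inv p := by simp
  right_inv p := by simp
  continuous_toFun := by fun_prop
  continuous_invFun := by fun_prop

/-- horizontal shear -/
def shearH {W : Type*} [AddCommGroup W] [TopologicalSpace W] [IsTopologicalAddGroup W]
    (ψ : C(W, ℝ)) : ℝ × W ≃ₜ ℝ × W where
  toFun p := (p.1 + ψ p.2, p.2)
  invFun p := (p.1 - ψ p.2, p.2)
  left_inv p := by simp
  right_inv p := by simp
  continuous_toFun := by fun_prop
  continuous_invFun := by fun_prop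

/-- Main homeomorphism lemma. -/
lemma exists_homeo {W ι : Type*} [NormedAddCommGroup W] [NormedSpace ℝ W] [Nontrivial W]
    [Finite ι] (D : ι → Set ℝ) (hD : ∀ i, IsClosed (D i))
    (hdisj : ∀ i j, i ≠ j → Disjoint (D i) (D j))
    (O : ι → Set (ℝ × W)) (hO : ∀ i, IsOpen (O i)) (hne : ∀ i, (O i).Nonempty) (R : ℝ) :
    ∃ h : ℝ × W ≃ₜ ℝ × W, ∀ i, ∀ x ∈ D i, |x| ≤ R → ∀ w : W, ‖w‖ ≤ R → h (x, w) ∈ O i := by
  classical
  obtain ⟨y, hy, hyinj⟩ := exists_points_injective_fst O hO hne
  obtain ⟨e, he⟩ := exists_ne (0 : W)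
  obtain ⟨φ, hφ⟩ := exists_continuous_finite_values D hD hdisj (fun i => (y i).1 • e)
  obtain ⟨ψ, hψ⟩ := exists_continuous_finite_values (X := W) (E := ℝ) (ι := ι)
    (fun i => {(y i).1 • e}) (fun i => isClosed_singleton)
    (fun i j hij => by
      rw [Set.disjoint_singleton]
      intro h
      apply hij
      apply hyinj
      exact smul_left_injective ℝ he h) (fun i => (y i).1)
  obtain ⟨φ2, hφ2⟩ := exists_continuous_finite_values (X := ℝ) (E := W) (ι := ι)
    (fun i => {(y i).1}) (fun i => isClosed_singleton)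
    (fun i j hij => by
      rw [Set.disjoint_singleton]
      intro h
      exact hij (hyinj h)) (fun i => (y i).2 - (y i).1 • e)
  let g : ℝ × W ≃ₜ ℝ × W := (shearH ψ).trans (shearV φ2)
  have hg : ∀ i, g (0, (y i).1 • e) = y i := by
    intro i
    have h1 : ψ ((y i).1 • e) = (y i).1 := hψ i _ rfl
    have h2 : φ2 ((y i).1) = (y i).2 - (y i).1 • e := hφ2 i _ rfl
    change shearV φ2 (shearH ψ (0, (y i).1 • e)) = y i
    have h3 : shearH ψ (0, (y i).1 • e) = ((y i).1, (y i).1 • e) := by
      change (0 + ψ ((y i).1 • e), (y i).1 • e) = _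
      rw [h1, zero_add]
    rw [h3]
    change ((y i).1, (y i).1 • e + φ2 (y i).1) = _
    rw [h2]
    ext <;> simp
  have hev : ∀ i, ∀ᶠ ε in 𝓝[>] (0:ℝ), ∀ v : ℝ × W, ‖v‖ < ε → g ((0, (y i).1 • e) + v) ∈ O i := by
    intro i
    have hcont : ContinuousAt (fun v : ℝ × W => g ((0, (y i).1 • e) + v)) 0 :=
      (g.continuous.comp (continuous_const.add continuous_id)).continuousAt
    have hmem : O i ∈ 𝓝 (g ((0, (y i).1 • e) + 0)) := by
      rw [add_zero, hg]
      exact (hO i).mem_nhds (hy i)
    have := hcont hmem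
    rw [Filter.mem_map, Metric.mem_nhds_iff] at this
    obtain ⟨δ, hδ, hball⟩ := this
    filter_upwards [Ioo_mem_nhdsGT hδ] with ε hε v hv
    apply hball
    rw [mem_ball_zero_iff]
    exact hv.trans hε.2
  have hev' := (Filter.eventually_all (l := 𝓝[>] (0:ℝ))).mpr hev
  obtain ⟨ε, hε, hεpos⟩ := (hev'.and self_mem_nhdsWithin).exists
  have hεpos : (0:ℝ) < ε := hεpos
  set t : ℝ := ε / (|R| + 1) with ht
  have htpos : 0 < t := by positivity
  have htR : t * |R| < ε := by
    rw [ht, div_mul_eq_mul_div, div_lt_iff₀ (by positivity)]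
    nlinarith [abs_nonneg R]
  let φt : C(ℝ, W) := φ.comp ⟨fun x => t⁻¹ * x, by fun_prop⟩
  let A : ℝ × W ≃ₜ ℝ × W := (Homeomorph.smulOfNeZero t htpos.ne').trans (shearV φt)
  refine ⟨A.trans g, ?_⟩
  intro i x hx hxR w hwR
  have hA : A (x, w) = (0, (y i).1 • e) + t • (x, w) := by
    change shearV φt (t • (x, w)) = _
    change ((t • (x,w)).1, (t • (x,w)).2 + φ (t⁻¹ * (t • (x,w)).1)) = _
    have h1 : t⁻¹ * (t • ((x,w) : ℝ × W)).1 = x := by
      simp only [Prod.smul_mk, smul_eq_mul]
      field_simp
    rw [h1, hφ i x hx]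
    ext
    · simp
    · simp [add_comm]
  change g (A (x, w)) ∈ O i
  rw [hA]
  apply hε i
  rw [norm_smul, Real.norm_eq_abs, abs_of_pos htpos]
  have hR : 0 ≤ R := (abs_nonneg x).trans hxR
  have : ‖((x, w) : ℝ × W)‖ ≤ |R| := by
    rw [Prod.norm_mk, abs_of_nonneg hR]
    exact max_le (by simpa using hxR) hwR
  calc t * ‖((x, w) : ℝ × W)‖ ≤ t * |R| := by gcongr
    _ < ε := htR


/-- The statement for a space `S` homeomorphic to the one point compactification of `ℝ × W`. -/
lemma main_prod {W S : Type*} [NormedAddCommGroup W] [NormedSpace ℝ W] [Nontrivial W]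
    [MetricSpace S] [CompactSpace S] (Θ : OnePoint (ℝ × W) ≃ₜ S) (C : Set S)
    (hC : IsClosed C) (hinf : Θ OnePoint.infty ∈ C) :
    ∃ H : ℕ → (S ≃ₜ S), (∀ p : S, ∃ q ∈ C, Tendsto (fun k : ℕ => H k p) atTop (𝓝 q)) ∧
      (∀ q ∈ C, ∃ p : S, Tendsto (fun k : ℕ => H k p) atTop (𝓝 q)) := by
  classical
  have : CompactSpace C := isCompact_iff_compactSpace.mp hC.isCompact
  have : Nonempty C := ⟨⟨_, hinf⟩⟩
  obtain ⟨f, hf, hfs⟩ := exists_nat_bool_continuous_surjective_of_compact C
  obtain ⟨g, -, hg, hgi⟩ := Perfect.exists_nat_bool_injection (C := (univ : Set ℝ))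
    (PerfectSpace.univ_perfect ℝ) univ_nonempty
  have hK : IsCompact (range g) := isCompact_range hg
  have hKne : (range g).Nonempty := range_nonempty g
  let coeV : ℝ × W → S := fun v => Θ (v : OnePoint (ℝ × W))
  have hcoe : Continuous coeV := Θ.continuous.comp OnePoint.continuous_coe
  have hdense : DenseRange coeV := by
    have h1 : DenseRange ((↑) : (ℝ × W) → OnePoint (ℝ × W)) := OnePoint.denseRange_coe
    exact Θ.surjective.denseRange.comp h1 Θ.continuous
  -- extension of finite words
  let ext : (k : ℕ) → (Fin k → Bool) → (ℕ → Bool) :=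
    fun k w n => if h : n < k then w ⟨n, h⟩ else false
  let D : (k : ℕ) → Option (Fin k → Bool) → Set ℝ := fun k i =>
    match i with
    | none => {x | 1 / ((k : ℝ) + 1) ≤ Metric.infDist x (range g)}
    | some w => g '' {b | ∀ i : Fin k, b i = w i}
  let tgt : (k : ℕ) → Option (Fin k → Bool) → S := fun k i =>
    match i with
    | none => Θ OnePoint.infty
    | some w => (f (ext k w) : S)
  let O : (k : ℕ) → Option (Fin k → Bool) → Set (ℝ × W) := fun k i =>
    coeV ⁻¹' (Metric.ball (tgt k i) (1 / ((k : ℝ) + 1)))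
  have hDclosed : ∀ k i, IsClosed (D k i) := by
    intro k i
    match i with
    | none => exact isClosed_le continuous_const (Metric.continuous_infDist_pt _)
    | some w =>
      have hcl : IsClosed {b : ℕ → Bool | ∀ i : Fin k, b i = w i} := by
        have : {b : ℕ → Bool | ∀ i : Fin k, b i = w i} =
            ⋂ i : Fin k, (fun b : ℕ → Bool => b i) ⁻¹' {w i} := by
          ext b; simp
        rw [this]
        exact isClosed_iInter (fun i => (isClosed_singleton).preimage (continuous_apply _))
      exact (hcl.isCompact.image hg).isClosed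
  have hDdisj : ∀ k i j, i ≠ j → Disjoint (D k i) (D k j) := by
    intro k i j hij
    have hnone : ∀ w : Fin k → Bool, Disjoint (D k none) (D k (some w)) := by
      intro w
      rw [Set.disjoint_left]
      rintro x hx ⟨b, _, rfl⟩
      have h0 : Metric.infDist (g b) (range g) = 0 :=
        Metric.infDist_zero_of_mem (mem_range_self b)
      have hx' : 1 / ((k : ℝ) + 1) ≤ Metric.infDist (g b) (range g) := hx
      rw [h0] at hx'
      have : (0:ℝ) < 1 / ((k : ℝ) + 1) := by positivity
      linarith
    match i, j with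
    | none, none => exact absurd rfl hij
    | none, some w => exact hnone w
    | some w, none => exact (hnone w).symm
    | some w, some w' =>
      rw [Set.disjoint_left]
      rintro x ⟨b, hb, rfl⟩ ⟨b', hb', hbb⟩
      have := hgi hbb
      subst this
      apply hij
      congr 1
      funext i
      rw [← hb i, ← hb' i]
  have hOopen : ∀ k i, IsOpen (O k i) := fun k i => Metric.isOpen_ball.preimage hcoe
  have hOne : ∀ k i, (O k i).Nonempty := by
    intro k i
    have hpos : (0:ℝ) < 1 / ((k : ℝ) + 1) := by positivity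
    obtain ⟨v, hv⟩ := hdense.exists_dist_lt (tgt k i) hpos
    refine ⟨v, ?_⟩
    change coeV v ∈ Metric.ball _ _
    rw [Metric.mem_ball, dist_comm]
    exact hv
  have hex : ∀ k : ℕ, ∃ h : ℝ × W ≃ₜ ℝ × W, ∀ i, ∀ x ∈ D k i, |x| ≤ (k:ℝ) →
      ∀ w : W, ‖w‖ ≤ (k : ℝ) → h (x, w) ∈ O k i := fun k =>
    exists_homeo (D k) (hDclosed k) (hDdisj k) (O k) (hOopen k) (hOne k) (k : ℝ)
  choose h hh using hex
  let H : ℕ → (S ≃ₜ S) := fun k => (Θ.symm.trans (h k).onePointCongr).trans Θ
  have Hcoe : ∀ k (v : ℝ × W), H k (coeV v) = coeV (h k v) := by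
    intro k v
    change Θ ((h k).onePointCongr (Θ.symm (Θ (v : OnePoint (ℝ × W))))) = Θ ((h k v : ℝ × W) : OnePoint (ℝ × W))
    rw [Θ.symm_apply_apply]
    rfl
  have Hinf : ∀ k, H k (Θ OnePoint.infty) = Θ OnePoint.infty := by
    intro k
    change Θ ((h k).onePointCongr (Θ.symm (Θ OnePoint.infty))) = Θ OnePoint.infty
    rw [Θ.symm_apply_apply]
    rfl
  have hone : Tendsto (fun k : ℕ => 1 / ((k : ℝ) + 1)) atTop (𝓝 0) :=
    tendsto_one_div_add_atTop_nhds_zero_nat
  -- convergence on the Cantor set
  have hconvK : ∀ (b : ℕ → Bool) (w : W),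
      Tendsto (fun k : ℕ => H k (coeV (g b, w))) atTop (𝓝 (f b : S)) := by
    intro b w
    have hext : Tendsto (fun k : ℕ => ext k (fun i => b i)) atTop (𝓝 b) := by
      rw [tendsto_pi_nhds]
      intro n
      apply tendsto_const_nhds.congr'
      filter_upwards [eventually_gt_atTop n] with k hk
      simp [ext, hk]
    have hfext : Tendsto (fun k : ℕ => (f (ext k (fun i => b i)) : S)) atTop (𝓝 (f b : S)) :=
      (continuous_subtype_val.tendsto _).comp ((hf.tendsto b).comp hext)
    have hdist : Tendsto (fun k : ℕ => dist (H k (coeV (g b, w))) (f (ext k (fun i => b i)) : S))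
        atTop (𝓝 0) := by
      refine squeeze_zero' (Eventually.of_forall fun k => dist_nonneg) ?_ hone
      filter_upwards [(tendsto_natCast_atTop_atTop (R := ℝ)).eventually_ge_atTop |g b|,
        (tendsto_natCast_atTop_atTop (R := ℝ)).eventually_ge_atTop ‖w‖] with k hk1 hk2
      have hmem : (g b) ∈ D k (some (fun i => b i)) := ⟨b, fun i => rfl, rfl⟩
      have := hh k (some (fun i => b i)) _ hmem hk1 w hk2
      rw [Hcoe]
      exact (Metric.mem_ball.mp this).le
    exact (tendsto_iff_of_dist hdist).mpr hfext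
  have hconvN : ∀ (x : ℝ) (w : W), x ∉ range g →
      Tendsto (fun k : ℕ => H k (coeV (x, w))) atTop (𝓝 (Θ OnePoint.infty)) := by
    intro x w hx
    have hpos : 0 < Metric.infDist x (range g) :=
      (hK.isClosed.notMem_iff_infDist_pos hKne).mp hx
    rw [tendsto_iff_dist_tendsto_zero]
    refine squeeze_zero' (Eventually.of_forall fun k => dist_nonneg) ?_ hone
    filter_upwards [(tendsto_natCast_atTop_atTop (R := ℝ)).eventually_ge_atTop |x|,
      (tendsto_natCast_atTop_atTop (R := ℝ)).eventually_ge_atTop ‖w‖,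
      hone.eventually_le_const hpos] with k hk1 hk2 hk3
    have hmem : x ∈ D k none := hk3
    have := hh k none _ hmem hk1 w hk2
    rw [Hcoe]
    exact (Metric.mem_ball.mp this).le
  refine ⟨H, ?_, ?_⟩
  · intro p
    obtain ⟨q, rfl⟩ := Θ.surjective p
    induction q using OnePoint.rec with
    | infty => exact ⟨_, hinf, by simp only [Hinf]; exact tendsto_const_nhds⟩
    | coe v =>
      obtain ⟨x, w⟩ := v
      by_cases hx : x ∈ range g
      · obtain ⟨b, rfl⟩ := hx
        exact ⟨f b, (f b).2, hconvK b w⟩
      · exact ⟨_, hinf, hconvN x w hx⟩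
  · intro q hq
    obtain ⟨b, hb⟩ := hfs ⟨q, hq⟩
    refine ⟨coeV (g b, 0), ?_⟩
    have := hconvK b 0
    rw [hb] at this
    exact this


/-- The regularised next-point function of a set `C`. -/
noncomputable def nu (C : Set ℝ) (K : ℝ) (x : ℝ) : ℝ := ⨅ c : C, ((c : ℝ) + K * max (x - c) 0)

lemma nu_aux {K : ℝ} (hK : 1 ≤ K) (x c : ℝ) : x ≤ c + K * max (x - c) 0 := by
  rcases le_total x c with h | h
  · have : 0 ≤ K * max (x - c) 0 := mul_nonneg (by linarith) (le_max_right _ _)
    linarith
  · rw [max_eq_left (by linarith)]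
    nlinarith

lemma nu_bdd (C : Set ℝ) {K : ℝ} (hK : 1 ≤ K) (x : ℝ) :
    BddBelow (range fun c : C => ((c : ℝ) + K * max (x - c) 0)) :=
  ⟨x, by rintro _ ⟨c, rfl⟩; exact nu_aux hK x c⟩

lemma le_nu {C : Set ℝ} (hC : C.Nonempty) {K : ℝ} (hK : 1 ≤ K) (x : ℝ) : x ≤ nu C K x := by
  have : Nonempty C := hC.to_subtype
  exact le_ciInf (fun c => nu_aux hK x c)

lemma nu_le {C : Set ℝ} {K : ℝ} (hK : 1 ≤ K) (x : ℝ) {c : ℝ} (hc : c ∈ C) :
    nu C K x ≤ c + K * max (x - c) 0 :=
  ciInf_le (nu_bdd C hK x) ⟨c, hc⟩

lemma nu_mono {C : Set ℝ} (hC : C.Nonempty) {K : ℝ} (hK : 1 ≤ K) : Monotone (nu C K) := by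
  intro x y hxy
  have : Nonempty C := hC.to_subtype
  apply le_ciInf
  intro c
  refine (nu_le hK x c.2).trans ?_
  have : 0 ≤ K := by linarith
  gcongr

lemma nu_lipschitz {C : Set ℝ} (hC : C.Nonempty) {K : NNReal} (hK : 1 ≤ (K:ℝ)) :
    LipschitzWith K (nu C K) := by
  apply LipschitzWith.of_le_add_mul
  intro x y
  have : Nonempty C := hC.to_subtype
  rw [← sub_le_iff_le_add]
  apply le_ciInf
  intro c
  have h1 := nu_le hK x c.2
  have h2 : max (x - c) 0 ≤ max (y - c) 0 + dist x y := by
    rw [Real.dist_eq]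
    apply max_le
    · have := le_abs_self (x - y)
      have := le_max_left (y - (c:ℝ)) 0
      linarith
    · have := abs_nonneg (x - y)
      have := le_max_right (y - (c:ℝ)) 0
      linarith
  have h3 : (K:ℝ) * max (x - c) 0 ≤ K * (max (y - c) 0 + dist x y) := by gcongr
  linarith

/-- The homeomorphism `x ↦ ν_{k+1}(x) + x / (k+1)` of the line. -/
lemma exists_homeo_real {C : Set ℝ} (hC : C.Nonempty) (k : ℕ) :
    ∃ h : ℝ ≃ₜ ℝ, ∀ x, h x = nu C ((k:ℝ) + 1) x + x / ((k:ℝ) + 1) := by
  have hkpos : (0:ℝ) < (k:ℝ) + 1 := by positivity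
  have hK : 1 ≤ (k:ℝ) + 1 := by
    have : (0:ℝ) ≤ k := Nat.cast_nonneg k
    linarith
  let F : ℝ → ℝ := fun x => nu C ((k:ℝ) + 1) x + x / ((k:ℝ) + 1)
  have hcont : Continuous F := by
    have h1 : Continuous (nu C ((k:ℝ) + 1)) := by
      have := (nu_lipschitz hC (K := ((k:NNReal) + 1)) (by push_cast; exact hK)).continuous
      push_cast at this
      exact this
    exact h1.add (continuous_id.div_const _)
  have hmono : StrictMono F := by
    intro x y hxy
    have h1 := nu_mono hC hK hxy.le
    have h2 : x / ((k:ℝ) + 1) < y / ((k:ℝ) + 1) := by gcongr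
    exact add_lt_add_of_le_of_lt h1 h2
  have htop : Tendsto F atTop atTop := by
    apply tendsto_atTop_mono' atTop _ tendsto_id
    filter_upwards [eventually_ge_atTop (0:ℝ)] with x hx
    have h1 := le_nu hC hK x
    have h2 : 0 ≤ x / ((k:ℝ) + 1) := by positivity
    simp only [id, F]
    linarith
  have hbot : Tendsto F atBot atBot := by
    obtain ⟨c, hc⟩ := hC
    have h1 : Tendsto (fun x : ℝ => c + x / ((k:ℝ) + 1)) atBot atBot :=
      tendsto_atBot_add_const_left _ _ (tendsto_id.atBot_div_const hkpos)
    apply tendsto_atBot_mono' atBot _ h1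
    filter_upwards [eventually_le_atBot c] with x hx
    have h2 := nu_le hK x hc
    rw [max_eq_right (by linarith)] at h2
    simp only [F]
    linarith
  have hsurj : Function.Surjective F := hcont.surjective htop hbot
  exact ⟨(hmono.orderIsoOfSurjective F hsurj).toHomeomorph, fun x => rfl⟩

/-- The statement for the circle, as the one point compactification of `ℝ`. -/
lemma main_real {S : Type*} [MetricSpace S] [CompactSpace S] (Θ : OnePoint ℝ ≃ₜ S) (C : Set S)
    (hC : IsClosed C) (hinf : Θ OnePoint.infty ∈ C) :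
    ∃ H : ℕ → (S ≃ₜ S), (∀ p : S, ∃ q ∈ C, Tendsto (fun k : ℕ => H k p) atTop (𝓝 q)) ∧
      (∀ q ∈ C, ∃ p : S, Tendsto (fun k : ℕ => H k p) atTop (𝓝 q)) := by
  classical
  let coeV : ℝ → S := fun v => Θ (v : OnePoint ℝ)
  have hcoe : Continuous coeV := Θ.continuous.comp OnePoint.continuous_coe
  have hcoetop : Tendsto coeV atTop (𝓝 (Θ OnePoint.infty)) := by
    have h1 : Tendsto ((↑) : ℝ → OnePoint ℝ) (coclosedCompact ℝ) (𝓝 OnePoint.infty) :=
      OnePoint.tendsto_coe_infty
    rw [coclosedCompact_eq_cocompact] at h1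
    exact (Θ.continuous.tendsto _).comp (h1.comp atTop_le_cocompact)
  let C' : Set ℝ := coeV ⁻¹' C
  have hC' : IsClosed C' := hC.preimage hcoe
  have lift : ∀ h : ℕ → (ℝ ≃ₜ ℝ), ∃ H : ℕ → (S ≃ₜ S), (∀ k v, H k (coeV v) = coeV (h k v)) ∧
      ∀ k, H k (Θ OnePoint.infty) = Θ OnePoint.infty := by
    intro h
    refine ⟨fun k => (Θ.symm.trans (h k).onePointCongr).trans Θ, ?_, ?_⟩
    · intro k v
      change Θ ((h k).onePointCongr (Θ.symm (Θ (v : OnePoint ℝ)))) = Θ ((h k v : ℝ) : OnePoint ℝ)
      rw [Θ.symm_apply_apply]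
      rfl
    · intro k
      change Θ ((h k).onePointCongr (Θ.symm (Θ OnePoint.infty))) = Θ OnePoint.infty
      rw [Θ.symm_apply_apply]
      rfl
  rcases C'.eq_empty_or_nonempty with hemp | hne
  · obtain ⟨H, Hcoe, Hinf⟩ := lift (fun k => Homeomorph.addRight (k : ℝ))
    refine ⟨H, ?_, ?_⟩
    · intro p
      refine ⟨_, hinf, ?_⟩
      obtain ⟨q, rfl⟩ := Θ.surjective p
      induction q using OnePoint.rec with
      | infty => simp only [Hinf]; exact tendsto_const_nhds
      | coe v =>
        have : (fun k : ℕ => H k (Θ (v : OnePoint ℝ))) = fun k : ℕ => coeV (v + k) := by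
          funext k
          exact Hcoe k v
        rw [this]
        exact hcoetop.comp (tendsto_atTop_add_const_left _ _ tendsto_natCast_atTop_atTop)
    · intro q hq
      refine ⟨Θ OnePoint.infty, ?_⟩
      have : q = Θ OnePoint.infty := by
        obtain ⟨r, rfl⟩ := Θ.surjective q
        induction r using OnePoint.rec with
        | infty => rfl
        | coe v =>
          exfalso
          have : v ∈ C' := hq
          rw [hemp] at this
          exact this
      rw [this]
      simp only [Hinf]
      exact tendsto_const_nhds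
  · have hex : ∀ k : ℕ, ∃ h : ℝ ≃ₜ ℝ, ∀ x, h x = nu C' ((k:ℝ) + 1) x + x / ((k:ℝ) + 1) :=
      fun k => exists_homeo_real hne k
    choose h hh using hex
    obtain ⟨H, Hcoe, Hinf⟩ := lift h
    have hK : ∀ k : ℕ, 1 ≤ (k:ℝ) + 1 := by
      intro k
      have : (0:ℝ) ≤ k := Nat.cast_nonneg k
      linarith
    have hdiv : ∀ x : ℝ, Tendsto (fun k : ℕ => x / ((k:ℝ) + 1)) atTop (𝓝 0) := by
      intro x
      have := (tendsto_one_div_add_atTop_nhds_zero_nat (𝕜 := ℝ)).const_mul x
      simpa [div_eq_mul_inv] using this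
    have hfix : ∀ x ∈ C', Tendsto (fun k : ℕ => H k (coeV x)) atTop (𝓝 (coeV x)) := by
      intro x hx
      have h1 : ∀ k : ℕ, nu C' ((k:ℝ) + 1) x = x := by
        intro k
        apply le_antisymm _ (le_nu hne (hK k) x)
        have := nu_le (hK k) x hx
        simpa using this
      have h2 : (fun k : ℕ => H k (coeV x)) = fun k : ℕ => coeV (x + x / ((k:ℝ) + 1)) := by
        funext k
        rw [Hcoe, hh, h1]
      rw [h2]
      have h3 : Tendsto (fun k : ℕ => x + x / ((k:ℝ) + 1)) atTop (𝓝 x) := by
        simpa using (hdiv x).const_add x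
      exact (hcoe.tendsto x).comp h3
    refine ⟨H, ?_, ?_⟩
    · intro p
      obtain ⟨q, rfl⟩ := Θ.surjective p
      induction q using OnePoint.rec with
      | infty => exact ⟨_, hinf, by simp only [Hinf]; exact tendsto_const_nhds⟩
      | coe x =>
        by_cases hx : x ∈ C'
        · exact ⟨_, hx, hfix x hx⟩
        · have hη : 0 < Metric.infDist x C' := (hC'.notMem_iff_infDist_pos hne).mp hx
          set η := Metric.infDist x C' with hηdef
          have hlow : ∀ k : ℕ, ∀ c ∈ C', c < x → x + (k:ℝ) * η ≤ c + ((k:ℝ) + 1) * max (x - c) 0 := by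
            intro k c hc hcx
            rw [max_eq_left (by linarith)]
            have h1 : η ≤ x - c := by
              have := Metric.infDist_le_dist_of_mem (x := x) hc
              rw [Real.dist_eq, abs_of_pos (by linarith)] at this
              exact this
            have : (k:ℝ) * η ≤ k * (x - c) := by gcongr
            linarith
          have hlin : Tendsto (fun k : ℕ => x + (k:ℝ) * η) atTop atTop :=
            tendsto_atTop_add_const_left _ _
              (tendsto_natCast_atTop_atTop.atTop_mul_const hη)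
          by_cases hup : (C' ∩ Ici x).Nonempty
          · -- next point
            have hcl : IsClosed (C' ∩ Ici x) := hC'.inter isClosed_Ici
            have hbdd : BddBelow (C' ∩ Ici x) := ⟨x, fun y hy => hy.2⟩
            have hb := hcl.csInf_mem hup hbdd
            set b := sInf (C' ∩ Ici x) with hbdef
            refine ⟨coeV b, hb.1, ?_⟩
            have hev : ∀ᶠ k : ℕ in atTop, nu C' ((k:ℝ) + 1) x = b := by
              filter_upwards [hlin.eventually_ge_atTop b] with k hk
              have : Nonempty C' := hne.to_subtype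
              apply le_antisymm
              · have := nu_le (hK k) x hb.1
                rw [max_eq_right (by linarith [show x ≤ b from hb.2])] at this
                linarith
              · apply le_ciInf
                intro c
                rcases lt_or_ge (c:ℝ) x with hcx | hcx
                · exact hk.trans (hlow k c c.2 hcx)
                · have h1 : b ≤ c := csInf_le hbdd ⟨c.2, hcx⟩
                  have h2 : 0 ≤ ((k:ℝ) + 1) * max (x - c) 0 :=
                    mul_nonneg (by linarith [hK k]) (le_max_right _ _)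
                  linarith
            have h3 : Tendsto (fun k : ℕ => b + x / ((k:ℝ) + 1)) atTop (𝓝 b) := by
              simpa using (hdiv x).const_add b
            refine ((hcoe.tendsto b).comp h3).congr' ?_
            filter_upwards [hev] with k hk
            simp only [Function.comp]
            change coeV (b + x / ((k:ℝ) + 1)) = H k (coeV x)
            rw [Hcoe, hh, hk]
          · refine ⟨_, hinf, ?_⟩
            have hev : Tendsto (fun k : ℕ => h k x) atTop atTop := by
              have h1 : Tendsto (fun k : ℕ => (x + (k:ℝ) * η) + x / ((k:ℝ) + 1)) atTop atTop :=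
                hlin.atTop_add (hdiv x)
              refine tendsto_atTop_mono (fun k => ?_) h1
              rw [hh]
              have : Nonempty C' := hne.to_subtype
              gcongr
              apply le_ciInf
              intro c
              apply hlow k c c.2
              by_contra hcx
              exact hup ⟨c, c.2, not_lt.mp hcx⟩
            have h2 : (fun k : ℕ => H k (Θ (x : OnePoint ℝ))) = fun k : ℕ => coeV (h k x) := by
              funext k
              exact Hcoe k x
            rw [h2]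
            exact hcoetop.comp hev
    · intro q hq
      obtain ⟨r, rfl⟩ := Θ.surjective q
      induction r using OnePoint.rec with
      | infty => exact ⟨Θ OnePoint.infty, by simp only [Hinf]; exact tendsto_const_nhds⟩
      | coe x => exact ⟨coeV x, hfix x hq⟩

end Pool.Agent.Hhelper65.SphereLimits
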